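import Pool.Agent.H78R2.Phil.Main

/-!
Philippon's conjecture (some `B`, `α`, `β`, `ε`) is equivalent to the abc inequality with some
exponent, and it is self-improving: if the inequality holds for one quadruple `(B, α, β, ε)`, then
for every `ε > 0` and all large `B` it holds with `α = 1`.
-/

set_option autoImplicit false

namespace Pool.Agent.Results.MP_05f553_nt.SelfImproving

open Pool.Agent.H78R2.Phil Pool.Agent.H78R2.Abc

/-- The inequality of Q1, with the constants `B`, `α`, `β`, `ε`, for all rationals `x`, `y`. -/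
def PhilIneq (B : ℕ) (α β ε : ℝ) : Prop :=
  ∀ x y : ℚ, x ≠ 0 → y ≠ 0 → x * y ^ B ≠ 1 → x * y ^ B ≠ -1 →
    -(∑ p ∈ (x * y ^ B + 1).num.natAbs.primeFactors,
        Real.log ((padicNorm p (x * y ^ B + 1) : ℚ) : ℝ))
      ≤ α * (B : ℝ) * Real.log (max |((x.num : ℤ) : ℝ)| ((x.den : ℕ) : ℝ))
        + ε * (B : ℝ) * Real.log (max |((y.num : ℤ) : ℝ)| ((y.den : ℕ) : ℝ))
        + (B : ℝ) * (α * (B : ℝ) + ε) *
            (β + ∑ p ∈ (x * y ^ B + 1).num.natAbs.primeFactors, Real.log (p : ℝ))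

/-- Q1: Philippon's conjecture. -/
def Philippon : Prop :=
  ∃ B : ℕ, 0 < B ∧ ∃ α β ε : ℝ, 1 ≤ α ∧ 0 ≤ β ∧ 0 < ε ∧ ε < 1 / 2 ∧ PhilIneq B α β ε

/-- The weak abc conjecture: `c` is at most a constant times some fixed power of the product of the
primes dividing `abc`. -/
def WeakAbc : Prop :=
  ∃ K κ : ℝ, ∀ a b c : ℕ, 0 < a → 0 < b → Nat.Coprime a b → a + b = c →
    (c : ℝ) ≤ κ * ((∏ p ∈ (a * b * c).primeFactors, p : ℕ) : ℝ) ^ K

theorem philIneq_iff (B : ℕ) (α β ε : ℝ) : PhilIneq B α β ε ↔ Ineq ε α β B := by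
  have key : ∀ x y : ℚ, (x * y ^ B ≠ -1 ↔ x * y ^ B + 1 ≠ 0) := fun x y => by
    rw [Ne, Ne, eq_neg_iff_add_eq_zero]
  have e : ∀ x y : ℚ, x * y ^ B + 1 ≠ 0 →
      ((-(∑ p ∈ (x * y ^ B + 1).num.natAbs.primeFactors,
        Real.log ((padicNorm p (x * y ^ B + 1) : ℚ) : ℝ))
      ≤ α * (B : ℝ) * Real.log (max |((x.num : ℤ) : ℝ)| ((x.den : ℕ) : ℝ))
        + ε * (B : ℝ) * Real.log (max |((y.num : ℤ) : ℝ)| ((y.den : ℕ) : ℝ))
        + (B : ℝ) * (α * (B : ℝ) + ε) *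
            (β + ∑ p ∈ (x * y ^ B + 1).num.natAbs.primeFactors, Real.log (p : ℝ))) ↔
      (-(∑ᶠ p ∈ S (x * y ^ B + 1), Real.log ((padicNorm p (x * y ^ B + 1) : ℚ) : ℝ)) ≤
      (B : ℝ) * (α * ht x + ε * ht y +
        (α * (B : ℝ) + ε) * (β + ∑ᶠ p ∈ S (x * y ^ B + 1), Real.log (p : ℝ))))) := by
    intro x y h
    rw [S_eq h, finsum_mem_coe_finset, finsum_mem_coe_finset]
    unfold ht
    have : ∀ s hx hy : ℝ, α * (B : ℝ) * hx + ε * (B : ℝ) * hy + (B : ℝ) * (α * (B : ℝ) + ε) * s =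
        (B : ℝ) * (α * hx + ε * hy + (α * (B : ℝ) + ε) * s) := by intros; ring
    rw [this]
  constructor
  · intro h x y hx hy h1 h2
    exact (e x y h2).1 (h x y hx hy h1 ((key x y).2 h2))
  · intro h x y hx hy h1 h2
    exact (e x y ((key x y).1 h2)).2 (h x y hx hy h1 ((key x y).1 h2))

/-- From some exponent to all large `B`. -/
theorem large_of_weak (h : WeakAbc) : ∃ β : ℝ, 0 ≤ β ∧ ∀ ε : ℝ, 0 < ε → ε < 1 / 2 →
    ∃ B₀ : ℕ, ∀ B : ℕ, B₀ ≤ B → PhilIneq B 1 β ε := by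
  obtain ⟨K, κ, h⟩ := h
  have h' : AbcWith (max K 1) (max κ 1) := by
    intro a b c ha hb hab hc
    refine (h a b c ha hb hab hc).trans ?_
    have h1 : (1 : ℝ) ≤ (rad (a * b * c) : ℝ) := by exact_mod_cast rad_pos _
    have h2 : ((rad (a * b * c) : ℝ)) ^ K ≤ ((rad (a * b * c) : ℝ)) ^ (max K 1) :=
      Real.rpow_le_rpow_of_exponent_le h1 (le_max_left _ _)
    have h3 : (0 : ℝ) ≤ ((rad (a * b * c) : ℝ)) ^ K := by positivity
    have h4 : κ * ((rad (a * b * c) : ℝ)) ^ K ≤ (max κ 1) * ((rad (a * b * c) : ℝ)) ^ K :=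
      mul_le_mul_of_nonneg_right (le_max_left _ _) h3
    have h5 : (max κ 1) * ((rad (a * b * c) : ℝ)) ^ K ≤
        (max κ 1) * ((rad (a * b * c) : ℝ)) ^ (max K 1) :=
      mul_le_mul_of_nonneg_left h2 (le_trans zero_le_one (le_max_right _ _))
    exact h4.trans h5
  refine ⟨Real.log (max κ 1), Real.log_nonneg (le_max_right _ _), ?_⟩
  intro ε hε hε1
  obtain ⟨B₀, hB₀⟩ := exists_nat_ge (2 * (max K 1) / ε)
  refine ⟨B₀, ?_⟩
  intro B hB
  rw [philIneq_iff]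
  refine ineq_of_abc (le_max_right _ _) (le_max_right _ _) h' hε (by linarith) ?_
  have h1 : 2 * (max K 1) / ε ≤ B := hB₀.trans (by exact_mod_cast hB)
  rw [div_le_iff₀ hε] at h1
  linarith

theorem weak_of_phil (h : Philippon) : WeakAbc := by
  obtain ⟨B, hB, α, β, ε, hα, hβ, hε, hε1, h⟩ := h
  rw [philIneq_iff] at h
  exact ⟨_, _, abc_of_ineq hε (by linarith) (by linarith) hβ hB h⟩

/-- Philippon's conjecture holds if and only if the abc inequality holds with some exponent; and if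
it holds at all, then with one constant `β`, with `α = 1`, for every `ε ∈ (0, 1/2)` and for all
large `B`. -/
theorem result :
    (Philippon ↔ WeakAbc) ∧
    (Philippon → ∃ β : ℝ, 0 ≤ β ∧ ∀ ε : ℝ, 0 < ε → ε < 1 / 2 →
      ∃ B₀ : ℕ, ∀ B : ℕ, B₀ ≤ B → PhilIneq B 1 β ε) := by
  refine ⟨⟨weak_of_phil, fun h => ?_⟩, fun h => large_of_weak (weak_of_phil h)⟩
  obtain ⟨β, hβ, h2⟩ := large_of_weak h
  obtain ⟨B₀, h3⟩ := h2 (1 / 4) (by norm_num) (by norm_num)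
  exact ⟨B₀ + 1, by omega, 1, β, 1 / 4, le_refl _, hβ, by norm_num, by norm_num,
    h3 (B₀ + 1) (by omega)⟩

end Pool.Agent.Results.MP_05f553_nt.SelfImproving
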